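import Mathlib

/-!
Discharging from blocked points to essential points in a union-closed family given by generators.
-/

set_option autoImplicit false
set_option linter.unusedSectionVars false

namespace Pool.Agent.Lib.MP_dbcba7_co.T5

open Finset

variable {V : Type} [Fintype V] [DecidableEq V]

/-- `S` is a union of members of `G` (possibly the empty union) -/
def Cl (G : Finset (Finset V)) (S : Finset V) : Prop := ∀ x ∈ S, ∃ T ∈ G, x ∈ T ∧ T ⊆ S

open Classical in
/-- the minimal missing sets of the generators through `w` -/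
noncomputable def MM (G : Finset (Finset V)) (S : Finset V) (w : V) : Finset (Finset V) :=
  univ.filter fun M => (∃ T ∈ G, w ∈ T ∧ M = T \ insert w S) ∧
    ∀ T ∈ G, w ∈ T → T \ insert w S ⊆ M → M ⊆ T \ insert w S

/-- `w` cannot be added to the member `S` -/
def Blk (G : Finset (Finset V)) (S : Finset V) (w : V) : Prop :=
  Cl G S ∧ w ∉ S ∧ ¬ Cl G (insert w S)

variable {G : Finset (Finset V)}

lemma mem_MM {S M : Finset V} {w : V} : M ∈ MM G S w ↔
    (∃ T ∈ G, w ∈ T ∧ M = T \ insert w S) ∧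
      ∀ T ∈ G, w ∈ T → T \ insert w S ⊆ M → M ⊆ T \ insert w S := by
  simp [MM]

lemma exists_MM {S T : Finset V} {w : V} (hT : T ∈ G) (hw : w ∈ T) :
    ∃ M ∈ MM G S w, M ⊆ T \ insert w S := by
  classical
  obtain ⟨T', hT', hmin⟩ := exists_min_image
    (G.filter fun T' => w ∈ T' ∧ T' \ insert w S ⊆ T \ insert w S)
    (fun T' => (T' \ insert w S).card) ⟨T, by simp [hT, hw]⟩
  simp only [mem_filter] at hT' hmin
  refine ⟨T' \ insert w S, mem_MM.2 ⟨⟨T', hT'.1, hT'.2.1, rfl⟩, fun U hU hwU hsub => ?_⟩, hT'.2.2⟩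
  exact (eq_of_subset_of_card_le hsub (hmin U ⟨hU, hwU, hsub.trans hT'.2.2⟩)).ge

lemma Blk.not_sub {S T : Finset V} {w : V} (h : Blk G S w) (hT : T ∈ G) (hw : w ∈ T) :
    ¬ T ⊆ insert w S := by
  intro hsub
  refine h.2.2 fun x hx => ?_
  rcases mem_insert.1 hx with rfl | hx
  · exact ⟨T, hT, hw, hsub⟩
  · obtain ⟨U, hU, hxU, hUS⟩ := h.1 x hx
    exact ⟨U, hU, hxU, hUS.trans (subset_insert _ _)⟩

lemma Blk.nonempty {S M : Finset V} {w : V} (h : Blk G S w) (hM : M ∈ MM G S w) : M.Nonempty := by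
  obtain ⟨⟨T, hT, hw, rfl⟩, -⟩ := mem_MM.1 hM
  exact sdiff_nonempty.2 (h.not_sub hT hw)

lemma MM_not_mem {S M : Finset V} {w y : V} (hM : M ∈ MM G S w) (hy : y ∈ M) : y ≠ w ∧ y ∉ S := by
  obtain ⟨⟨T, -, -, rfl⟩, -⟩ := mem_MM.1 hM
  simpa using (mem_sdiff.1 hy).2

lemma MM_cl {S M : Finset V} {w : V} (h : Cl G S) (hM : M ∈ MM G S w) :
    Cl G (insert w (S ∪ M)) := by
  obtain ⟨⟨T, hT, hw, rfl⟩, -⟩ := mem_MM.1 hM
  have hsub : T ⊆ insert w (S ∪ T \ insert w S) := by
    intro x hx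
    by_cases h1 : x = w <;> by_cases h2 : x ∈ S <;> simp [h1, h2, hx]
  intro x hx
  rcases mem_insert.1 hx with rfl | hx
  · exact ⟨T, hT, hw, hsub⟩
  rcases mem_union.1 hx with hx | hx
  · obtain ⟨U, hU, hxU, hUS⟩ := h x hx
    exact ⟨U, hU, hxU, hUS.trans (subset_union_left.trans (subset_insert _ _))⟩
  · exact ⟨T, hT, (mem_sdiff.1 hx).1, hsub⟩

lemma MM_sub {S M T : Finset V} {w : V} (hM : M ∈ MM G S w) (hT : T ∈ G) (hw : w ∈ T)
    (hsub : T ⊆ insert w (S ∪ M)) : M ⊆ T.erase w := by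
  have h1 : T \ insert w S ⊆ M := by
    intro x hx
    have := hsub (mem_sdiff.1 hx).1
    have h2 := (mem_sdiff.1 hx).2
    simp only [mem_insert, mem_union, not_or] at this h2
    tauto
  intro x hx
  have := mem_sdiff.1 ((mem_MM.1 hM).2 T hT hw h1 hx)
  exact mem_erase.2 ⟨fun e => this.2 (e ▸ mem_insert_self _ _), this.1⟩

open Classical in
/-- the moves that end in `S'` and charge `y` -/
noncomputable def fib (G : Finset (Finset V)) (S' : Finset V) (y : V) :
    Finset (Finset V × V × Finset V) :=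
  univ.filter fun a => Blk G a.1 a.2.1 ∧ a.2.2 ∈ MM G a.1 a.2.1 ∧ y ∈ a.2.2 ∧
    insert a.2.1 (a.1 ∪ a.2.2) = S'

open Classical in
/-- the points of `S'` for which `y` is needed -/
noncomputable def QQ (G : Finset (Finset V)) (S' : Finset V) (y : V) : Finset V :=
  S'.filter fun w => w ≠ y ∧ ∀ T ∈ G, w ∈ T → T ⊆ S' → y ∈ T

lemma mem_fib {S' : Finset V} {y : V} {a : Finset V × V × Finset V} : a ∈ fib G S' y ↔
    Blk G a.1 a.2.1 ∧ a.2.2 ∈ MM G a.1 a.2.1 ∧ y ∈ a.2.2 ∧ insert a.2.1 (a.1 ∪ a.2.2) = S' := by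
  simp [fib]

lemma mem_QQ {S' : Finset V} {y w : V} : w ∈ QQ G S' y ↔
    w ∈ S' ∧ w ≠ y ∧ ∀ T ∈ G, w ∈ T → T ⊆ S' → y ∈ T := by
  simp [QQ]

lemma fib_QQ {S' : Finset V} {y : V} {a : Finset V × V × Finset V} (ha : a ∈ fib G S' y) :
    a.2.1 ∈ QQ G S' y ∧ insert y ((QQ G S' y).erase a.2.1) ⊆ a.2.2 := by
  obtain ⟨S, w, M⟩ := a
  obtain ⟨hB, hM, hy, rfl⟩ := mem_fib.1 ha
  simp only at hB hM hy ⊢
  refine ⟨mem_QQ.2 ⟨mem_insert_self _ _, (MM_not_mem hM hy).1.symm, fun T hT hw hsub =>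
    mem_of_mem_erase (MM_sub hM hT hw hsub hy)⟩, fun x hx => ?_⟩
  rcases mem_insert.1 hx with rfl | hx
  · exact hy
  obtain ⟨hxw, hx⟩ := mem_erase.1 hx
  obtain ⟨h1, -, h3⟩ := mem_QQ.1 hx
  rcases mem_insert.1 h1 with h1 | h1
  · exact absurd h1 hxw
  rcases mem_union.1 h1 with h1 | h1
  · obtain ⟨U, hU, hxU, hUS⟩ := hB.1 x h1
    exact absurd (hUS (h3 U hU hxU (hUS.trans (subset_union_left.trans (subset_insert _ _)))))
      (MM_not_mem hM hy).2
  · exact h1

lemma card_base {S' : Finset V} {y w : V} (hw : w ∈ QQ G S' y) :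
    (insert y ((QQ G S' y).erase w)).card = (QQ G S' y).card := by
  have hy : y ∉ (QQ G S' y).erase w := fun h => (mem_QQ.1 (mem_of_mem_erase h)).2.1 rfl
  rw [card_insert_of_notMem hy, card_erase_add_one hw]

lemma fib_sum_le {S' : Finset V} {y : V} (c : ℕ → ℚ) (hc : ∀ m, 0 ≤ c m)
    (F : V → Finset (Finset V)) (hF : ∀ a ∈ fib G S' y, a.2.2 ∈ F a.2.1) :
    ∑ a ∈ fib G S' y, c a.2.2.card ≤ ∑ w ∈ QQ G S' y, ∑ M ∈ F w, c M.card := by
  classical
  have hinj : Set.InjOn (fun a : Finset V × V × Finset V => a.2) (fib G S' y) := by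
    have key : ∀ a ∈ fib G S' y, a.1 = S' \ insert a.2.1 a.2.2 := by
      intro a ha
      obtain ⟨hB, hM, -, rfl⟩ := mem_fib.1 ha
      ext x
      simp only [mem_sdiff, mem_insert, mem_union, not_or]
      constructor
      · intro hx
        exact ⟨Or.inr (Or.inl hx), fun e => hB.2.1 (e ▸ hx), fun h => (MM_not_mem hM h).2 hx⟩
      · tauto
    intro a ha b hb hab
    have h2 : a.2 = b.2 := hab
    exact Prod.ext (by rw [key a ha, key b hb, h2]) h2
  rw [← sum_image (f := fun b : V × Finset V => c b.2.card) hinj,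
    ← sum_product' (QQ G S' y) univ (fun w M => if M ∈ F w then c M.card else 0) |>.trans
      (sum_congr rfl fun w _ => by rw [← sum_filter]; simp), ← sum_filter]
  refine sum_le_sum_of_subset_of_nonneg (fun b hb => ?_) fun b _ _ => hc _
  obtain ⟨a, ha, rfl⟩ := mem_image.1 hb
  simp [(fib_QQ ha).1, hF a ha]

lemma sum_between (c : ℕ → ℚ) {A E : Finset V} (h : A ⊆ E) :
    ∑ M ∈ E.powerset.filter (A ⊆ ·), c M.card =
      ∑ j ∈ range (E.card - A.card + 1), ((E.card - A.card).choose j : ℚ) * c (A.card + j) := by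
  have h1 : ∑ M ∈ E.powerset.filter (A ⊆ ·), c M.card =
      ∑ D ∈ (E \ A).powerset, c (A.card + D.card) := by
    refine sum_nbij' (fun M => M \ A) (fun D => A ∪ D) ?_ ?_ ?_ ?_ ?_
    · intro M hM
      simp only [mem_filter, mem_powerset] at hM ⊢
      exact sdiff_subset_sdiff hM.1 Subset.rfl
    · intro D hD
      simp only [mem_filter, mem_powerset] at hD ⊢
      exact ⟨union_subset h (hD.trans sdiff_subset), subset_union_left⟩
    · intro M hM
      exact union_sdiff_of_subset (mem_filter.1 hM).2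
    · intro D hD
      exact union_sdiff_cancel_left (disjoint_of_subset_right (mem_powerset.1 hD) disjoint_sdiff)
    · intro M hM
      rw [add_comm, card_sdiff_add_card_eq_card (mem_filter.1 hM).2]
  rw [h1, sum_powerset_apply_card (fun j => c (A.card + j)), card_sdiff_of_subset h]
  simp

/-- the load of an essential pair when all generators have at most `k + 1` points -/
lemma load_le {k : ℕ} (hk : ∀ T ∈ G, T.card ≤ k + 1) (c : ℕ → ℚ) (hc : ∀ m, 0 ≤ c m)
    (hnum : ∀ q m : ℕ, 1 ≤ q → q + m ≤ k →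
      (q : ℚ) * ∑ j ∈ range (m + 1), (m.choose j : ℚ) * c (q + j) ≤ 1)
    (S' : Finset V) (y : V) : ∑ a ∈ fib G S' y, c a.2.2.card ≤ 1 := by
  classical
  rcases (fib G S' y).eq_empty_or_nonempty with h0 | ⟨a0, ha0⟩
  · simp [h0]
  have hcl : Cl G S' := by
    obtain ⟨hB, hM, -, rfl⟩ := mem_fib.1 ha0
    exact MM_cl hB.1 hM
  choose! T hT using hcl
  set Q := QQ G S' y with hQ
  have hq : 1 ≤ Q.card := card_pos.2 ⟨_, (fib_QQ ha0).1⟩
  have hq0 : (0 : ℚ) < Q.card := by exact_mod_cast hq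
  refine (fib_sum_le c hc
    (fun w => ((T w).erase w).powerset.filter (insert y (Q.erase w) ⊆ ·)) fun a ha => ?_).trans ?_
  · have h1 := fib_QQ ha
    have h2 := hT _ (mem_QQ.1 h1.1).1
    obtain ⟨-, hM, -, e⟩ := mem_fib.1 ha
    exact mem_filter.2 ⟨mem_powerset.2 (MM_sub hM h2.1 h2.2.1 (e ▸ h2.2.2)), h1.2⟩
  · refine (sum_le_card_nsmul Q _ (1 / (Q.card : ℚ)) fun w hw => ?_).trans (le_of_eq (by
      rw [nsmul_eq_mul, mul_one_div_cancel hq0.ne']))
    by_cases hsub : insert y (Q.erase w) ⊆ (T w).erase w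
    · have h2 := hT _ (mem_QQ.1 hw).1
      have h3 := card_le_card hsub
      have h4 := hk _ h2.1
      have h5 := card_erase_add_one h2.2.1
      rw [sum_between c hsub, card_base hw, le_div_iff₀ hq0, mul_comm]
      rw [card_base hw] at h3
      have h6 : Q.card = (QQ G S' y).card := rfl
      exact hnum _ _ hq (by omega)
    · rw [filter_false_of_mem fun M hM h => hsub (h.trans (mem_powerset.1 hM))]
      simp

/-- the load when every move is determined by its blocked point -/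
lemma load_le' (c : ℕ → ℚ) (hc : ∀ m, 0 ≤ c m) (hnum : ∀ q : ℕ, (q : ℚ) * c q ≤ 1)
    (S' : Finset V) (y : V)
    (h : ∀ a ∈ fib G S' y, a.2.2 ⊆ insert y ((QQ G S' y).erase a.2.1)) :
    ∑ a ∈ fib G S' y, c a.2.2.card ≤ 1 := by
  refine (fib_sum_le c hc (fun w => {insert y ((QQ G S' y).erase w)}) fun a ha =>
    mem_singleton.2 (Subset.antisymm (h a ha) (fib_QQ ha).2)).trans ?_
  rw [sum_congr rfl fun w hw => by rw [sum_singleton, card_base hw], sum_const, nsmul_eq_mul]
  exact hnum _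

open Classical in
lemma blocked_le (ω : ℕ → ℚ)
    (H1 : ∀ S w, Blk G S w → 1 ≤ ∑ M ∈ MM G S w, ω M.card)
    (H2 : ∀ S' y, ∑ a ∈ fib G S' y, ω a.2.2.card / a.2.2.card ≤ 1) :
    (univ.filter fun p : Finset V × V => Blk G p.1 p.2).card ≤
      (univ.filter fun p : Finset V × V => Cl G p.1 ∧ p.2 ∈ p.1 ∧ ¬ Cl G (p.1.erase p.2)).card := by
  set LO := univ.filter fun p : Finset V × V => Blk G p.1 p.2
  set LI := univ.filter fun p : Finset V × V => Cl G p.1 ∧ p.2 ∈ p.1 ∧ ¬ Cl G (p.1.erase p.2)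
  set A := univ.filter fun a : Finset V × V × Finset V => Blk G a.1 a.2.1 ∧ a.2.2 ∈ MM G a.1 a.2.1
  have h1 : (LO.card : ℚ) ≤ ∑ a ∈ A, ω a.2.2.card := by
    rw [← sum_fiberwise_of_maps_to (s := A) (t := LO) (g := fun a => (a.1, a.2.1))
      (fun a ha => by simp only [A, LO, mem_filter, mem_univ, true_and] at ha ⊢; exact ha.1)]
    rw [card_eq_sum_ones, Nat.cast_sum]
    refine sum_le_sum fun p hp => ?_
    have hp' : Blk G p.1 p.2 := (mem_filter.1 hp).2
    refine (Nat.cast_one.trans_le (H1 _ _ hp')).trans (le_of_eq ?_)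
    refine sum_nbij' (fun M => (p.1, p.2, M)) (fun a => a.2.2) ?_ ?_ ?_ ?_ ?_
    · intro M hM
      simp [A, hp', hM]
    · intro a ha
      simp only [A, mem_filter, mem_univ, true_and] at ha
      obtain ⟨ha, rfl⟩ := ha
      exact ha.2
    · intro M _
      rfl
    · intro a ha
      obtain ⟨-, rfl⟩ := mem_filter.1 ha
      rfl
    · intro M _
      rfl
  have h2 : ∑ a ∈ A, ω a.2.2.card =
      ∑ p ∈ LI, ∑ a ∈ fib G p.1 p.2, ω a.2.2.card / a.2.2.card := by
    have e1 : ∀ p : Finset V × V, ∑ a ∈ fib G p.1 p.2, ω a.2.2.card / a.2.2.card =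
        ∑ a ∈ A, if p.2 ∈ a.2.2 ∧ insert a.2.1 (a.1 ∪ a.2.2) = p.1 then
          ω a.2.2.card / a.2.2.card else 0 := by
      intro p
      rw [← sum_filter]
      refine sum_congr ?_ fun _ _ => rfl
      ext a
      simp [A, mem_fib, and_assoc]
    rw [sum_congr rfl fun p _ => e1 p, sum_comm]
    refine sum_congr rfl fun a ha => ?_
    simp only [A, mem_filter, mem_univ, true_and] at ha
    have hne : (a.2.2.card : ℚ) ≠ 0 := by
      exact_mod_cast (ha.1.nonempty ha.2).card_pos.ne'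
    have e2 : LI.filter (fun p => p.2 ∈ a.2.2 ∧ insert a.2.1 (a.1 ∪ a.2.2) = p.1) =
        a.2.2.image fun y => (insert a.2.1 (a.1 ∪ a.2.2), y) := by
      ext p
      simp only [LI, mem_filter, mem_univ, true_and, mem_image]
      constructor
      · rintro ⟨-, hy, e⟩
        exact ⟨p.2, hy, by rw [e]⟩
      · rintro ⟨y, hy, rfl⟩
        refine ⟨⟨MM_cl ha.1.1 ha.2, by simp [hy], fun hcl => ?_⟩, hy, rfl⟩
        obtain ⟨T, hT, hw, hsub⟩ := hcl a.2.1
          (mem_erase.2 ⟨(MM_not_mem ha.2 hy).1.symm, mem_insert_self _ _⟩)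
        have := MM_sub ha.2 hT hw (hsub.trans (erase_subset _ _)) hy
        exact (mem_erase.1 (hsub (mem_of_mem_erase this))).1 rfl
    rw [← sum_filter, e2, sum_const, card_image_of_injective _ fun y y' h => (Prod.mk.inj h).2,
      nsmul_eq_mul, mul_div_cancel₀ _ hne]
  have h3 : (LO.card : ℚ) ≤ LI.card := by
    refine h1.trans (h2.trans_le ((sum_le_card_nsmul _ _ 1 fun p _ => H2 _ _).trans_eq (by simp)))
  exact_mod_cast h3

open Classical in
/-- some point lies in at least half of the unions of generators -/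
theorem exists_half [Nonempty V] (ω : ℕ → ℚ)
    (H1 : ∀ S w, Blk G S w → 1 ≤ ∑ M ∈ MM G S w, ω M.card)
    (H2 : ∀ S' y, ∑ a ∈ fib G S' y, ω a.2.2.card / a.2.2.card ≤ 1) :
    ∃ x, (univ.filter fun S => Cl G S).card ≤ 2 * (univ.filter fun S => Cl G S ∧ x ∈ S).card := by
  by_contra hcon
  push Not at hcon
  have h := blocked_le ω H1 H2
  rw [card_eq_sum_card_fiberwise (f := Prod.snd) (t := univ) (fun _ _ => mem_univ _),
    card_eq_sum_card_fiberwise (f := Prod.snd) (t := univ) (fun _ _ => mem_univ _)] at h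
  refine absurd h (not_le.2 (sum_lt_sum_of_nonempty univ_nonempty fun x _ => ?_))
  have e1 : ((univ.filter fun p : Finset V × V =>
      Cl G p.1 ∧ p.2 ∈ p.1 ∧ ¬ Cl G (p.1.erase p.2)).filter fun p => p.2 = x).card =
      ((univ.filter fun S => Cl G S ∧ x ∈ S).filter fun S => ¬ Cl G (S.erase x)).card := by
    refine card_nbij' (fun p => p.1) (fun S => (S, x)) ?_ ?_ ?_ ?_
    · intro p hp
      simp only [coe_filter, mem_filter, mem_univ, true_and, Set.mem_ofPred_eq] at hp ⊢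
      obtain ⟨hp, rfl⟩ := hp
      tauto
    · intro S hS
      simp only [coe_filter, mem_filter, mem_univ, true_and, Set.mem_ofPred_eq] at hS ⊢
      tauto
    · intro p hp
      obtain ⟨-, rfl⟩ := mem_filter.1 hp
      rfl
    · intro S _
      rfl
  have e2 : ((univ.filter fun p : Finset V × V => Blk G p.1 p.2).filter fun p => p.2 = x).card =
      ((univ.filter fun S => Cl G S ∧ x ∉ S).filter fun S => ¬ Cl G (insert x S)).card := by
    refine card_nbij' (fun p => p.1) (fun S => (S, x)) ?_ ?_ ?_ ?_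
    · intro p hp
      simp only [coe_filter, mem_filter, mem_univ, true_and, Set.mem_ofPred_eq] at hp ⊢
      obtain ⟨hp, rfl⟩ := hp
      exact ⟨⟨hp.1, hp.2.1⟩, hp.2.2⟩
    · intro S hS
      simp only [coe_filter, mem_filter, mem_univ, true_and, Set.mem_ofPred_eq] at hS ⊢
      exact ⟨⟨hS.1.1, hS.1.2, hS.2⟩, trivial⟩
    · intro p hp
      obtain ⟨-, rfl⟩ := mem_filter.1 hp
      rfl
    · intro S _
      rfl
  have e3 : ((univ.filter fun S => Cl G S ∧ x ∈ S).filter fun S => Cl G (S.erase x)).card =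
      ((univ.filter fun S => Cl G S ∧ x ∉ S).filter fun S => Cl G (insert x S)).card := by
    refine card_nbij' (fun S => S.erase x) (fun S => insert x S) ?_ ?_ ?_ ?_
    · intro S hS
      simp only [coe_filter, mem_filter, mem_univ, true_and, Set.mem_ofPred_eq] at hS ⊢
      exact ⟨⟨hS.2, notMem_erase _ _⟩, by rw [insert_erase hS.1.2]; exact hS.1.1⟩
    · intro S hS
      simp only [coe_filter, mem_filter, mem_univ, true_and, Set.mem_ofPred_eq] at hS ⊢
      exact ⟨⟨hS.2, mem_insert_self _ _⟩, by rw [erase_insert hS.1.2]; exact hS.1.1⟩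
    · intro S hS
      exact insert_erase (mem_filter.1 (mem_filter.1 hS).1).2.2
    · intro S hS
      exact erase_insert (mem_filter.1 (mem_filter.1 hS).1).2.2
  have e4 := card_filter_add_card_filter_not (s := univ.filter fun S => Cl G S ∧ x ∈ S)
    fun S => Cl G (S.erase x)
  have e5 := card_filter_add_card_filter_not (s := univ.filter fun S => Cl G S ∧ x ∉ S)
    fun S => Cl G (insert x S)
  have e6 := card_filter_add_card_filter_not (s := univ.filter fun S => Cl G S) fun S => x ∈ S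
  rw [filter_filter, filter_filter] at e6
  have e7 := hcon x
  omega

end Pool.Agent.Lib.MP_dbcba7_co.T5
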