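import Pool.Agent.Lib.MP_dbcba7_co.T5.Torus

set_option autoImplicit false

namespace Pool.Agent.Lib.MP_dbcba7_co.T5

open Finset

open Classical in
lemma half_of_cl {V : Type} [Fintype V] [DecidableEq V] {G F : Finset (Finset V)}
    (hF : ∀ S, S ∈ F ↔ ∃ C : Finset (Finset V), C ⊆ G ∧ C.Nonempty ∧ S = C.biUnion id) {x : V}
    (h : (univ.filter fun S => Cl G S).card ≤ 2 * (univ.filter fun S => Cl G S ∧ x ∈ S).card) :
    F.card ≤ 2 * (F.filter (x ∈ ·)).card := by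
  refine (card_le_card fun S hS => ?_).trans (h.trans (Nat.mul_le_mul_left 2
    (card_le_card fun S hS => ?_)))
  · obtain ⟨C, hC, -, rfl⟩ := (hF S).1 hS
    refine mem_filter.2 ⟨mem_univ _, fun y hy => ?_⟩
    obtain ⟨T, hT, hyT⟩ := mem_biUnion.1 hy
    exact ⟨T, hC hT, hyT, subset_biUnion_of_mem id hT⟩
  · obtain ⟨hcl, hx⟩ := (mem_filter.1 hS).2
    refine mem_filter.2 ⟨(hF S).2 ⟨G.filter (· ⊆ S), filter_subset _ _, ?_, ?_⟩, hx⟩
    · obtain ⟨T, hT, -, hTS⟩ := hcl x hx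
      exact ⟨T, mem_filter.2 ⟨hT, hTS⟩⟩
    · ext y
      simp only [mem_biUnion, mem_filter, id]
      constructor
      · intro hy
        obtain ⟨T, hT, hyT, hTS⟩ := hcl y hy
        exact ⟨T, ⟨hT, hTS⟩, hyT⟩
      · rintro ⟨T, hT, hyT⟩
        exact hT.2 hyT

theorem main (A : Type) [AddCommGroup A] [Fintype A] [DecidableEq A] (R : Finset A)
    (h1 : 1 ≤ R.card) (h5 : R.card ≤ 5) (G F : Finset (Finset (A × A)))
    (hG : ∀ T, T ∈ G ↔ ∃ v : A × A,
      T = (R ×ˢ ({0} : Finset A)).image (· + v) ∨ T = (({0} : Finset A) ×ˢ R).image (· + v))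
    (hF : ∀ S, S ∈ F ↔ ∃ C : Finset (Finset (A × A)), C ⊆ G ∧ C.Nonempty ∧ S = C.biUnion id) :
    ∃ x : A × A, F.card ≤ 2 * (F.filter (x ∈ ·)).card := by
  have e1 : ∀ v : A × A, (R ×ˢ ({0} : Finset A)).image (· + v) =
      tile R (AddMonoidHom.inl A A) v := by
    intro v
    ext p
    simp [mem_tile, eq_add_neg_iff_add_eq]
  have e2 : ∀ v : A × A, (({0} : Finset A) ×ˢ R).image (· + v) =
      tile R (AddMonoidHom.inr A A) v := by
    intro v
    ext p
    simp [mem_tile, eq_add_neg_iff_add_eq]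
  obtain ⟨x, hx⟩ := torus (G := G) (card_pos.1 h1) h5 (AddMonoidHom.inl A A)
    (AddMonoidHom.inr A A) (fun a b h => (Prod.mk.inj h).1) (fun a b h => (Prod.mk.inj h).2)
    (fun a b h => (Prod.mk.inj h).2.symm) (fun T => by simpa only [e1, e2] using hG T)
  exact ⟨x, half_of_cl hF hx⟩

end Pool.Agent.Lib.MP_dbcba7_co.T5
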