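import Pool.Agent.Lib.MP_dbcba7_co.T5.Core

/-!
The family generated by the translates of a set with at most five points in two directions.
-/

set_option autoImplicit false
set_option linter.unusedSectionVars false

namespace Pool.Agent.Lib.MP_dbcba7_co.T5

open Finset

variable {A V : Type} [AddCommGroup A] [Fintype A] [DecidableEq A]
  [AddCommGroup V] [Fintype V] [DecidableEq V]

/-- the translate by `v` of the image of `R` -/
def tile (R : Finset A) (ι : A →+ V) (v : V) : Finset V := R.image fun r => ι r + v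

/-- the periods of `R` -/
def Per (R : Finset A) : Finset A := univ.filter fun d => ∀ r ∈ R, r + d ∈ R

variable {R : Finset A} {G : Finset (Finset V)}

lemma mem_tile {ι : A →+ V} {v x : V} : x ∈ tile R ι v ↔ ∃ r ∈ R, ι r + v = x := by
  simp [tile]

lemma mem_Per {d : A} : d ∈ Per R ↔ ∀ r ∈ R, r + d ∈ R := by simp [Per]

lemma zero_Per : (0 : A) ∈ Per R := mem_Per.2 fun r hr => by simpa using hr

lemma add_Per {a b : A} (ha : a ∈ Per R) (hb : b ∈ Per R) : a + b ∈ Per R :=
  mem_Per.2 fun r hr => by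
    rw [← add_assoc]
    exact mem_Per.1 hb _ (mem_Per.1 ha r hr)

lemma neg_Per {a : A} (ha : a ∈ Per R) : -a ∈ Per R := by
  have h : R.image (· + a) = R := by
    refine eq_of_subset_of_card_le (fun x hx => ?_)
      (card_image_of_injective _ (add_left_injective a)).ge
    obtain ⟨r, hr, rfl⟩ := mem_image.1 hx
    exact mem_Per.1 ha r hr
  refine mem_Per.2 fun r hr => ?_
  rw [← h] at hr
  obtain ⟨s, hs, rfl⟩ := mem_image.1 hr
  simpa using hs

lemma per_card {r s : A} (hr : r ∈ R) (hs : s ∈ R) (h : s - r ∉ Per R) :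
    2 * (Per R).card ≤ R.card := by
  have hd : Disjoint ((Per R).image (r + ·)) ((Per R).image (s + ·)) := by
    refine disjoint_left.2 fun x h1 h2 => h ?_
    obtain ⟨a, ha, rfl⟩ := mem_image.1 h1
    obtain ⟨b, hb, e⟩ := mem_image.1 h2
    have : s - r = a + -b := by
      rw [← sub_eq_zero]
      have e' : s + b - (r + a) = 0 := sub_eq_zero.2 e
      rw [← e']
      abel
    exact this ▸ add_Per ha (neg_Per hb)
  have hsub : (Per R).image (r + ·) ∪ (Per R).image (s + ·) ⊆ R := by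
    refine union_subset (fun x hx => ?_) fun x hx => ?_
    · obtain ⟨a, ha, rfl⟩ := mem_image.1 hx
      exact mem_Per.1 ha r hr
    · obtain ⟨a, ha, rfl⟩ := mem_image.1 hx
      exact mem_Per.1 ha s hs
  have := card_le_card hsub
  rw [card_union_of_disjoint hd, card_image_of_injective _ (add_right_injective r),
    card_image_of_injective _ (add_right_injective s)] at this
  omega

lemma per_even (h : (Per R).card = 2) : Even R.card := by
  obtain ⟨d, hd, hd0⟩ := exists_mem_ne (s := Per R) (by omega) 0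
  have hP : Per R = {0, d} := by
    refine (eq_of_subset_of_card_le (fun x hx => ?_) ?_).symm
    · rcases mem_insert.1 hx with rfl | hx
      · exact zero_Per
      · exact mem_singleton.1 hx ▸ hd
    · rw [h, card_pair hd0.symm]
  have h2 : d + d = 0 := by
    have := add_Per hd hd
    rw [hP] at this
    rcases mem_insert.1 this with e | e
    · exact e
    · exact absurd (by simpa using e) hd0
  have h3 : ∑ _r ∈ R, (1 : ZMod 2) = 0 :=
    sum_involution (fun r _ => r + d) (fun _ _ => by decide) (fun r _ _ => by simpa using hd0)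
      (fun r hr => mem_Per.1 hd r hr) (fun r _ => by rw [add_assoc, h2, add_zero])
  rw [sum_const, nsmul_eq_mul, mul_one] at h3
  exact ZMod.natCast_eq_zero_iff_even.1 h3

open Classical in
/-- one direction supplies half of the weight -/
lemma dir_half (hR : R.Nonempty) (ι : A →+ V) (hι : Function.Injective ι)
    (hG : ∀ v, tile R ι v ∈ G) (ω : ℕ → ℚ) (h4 : ∀ m, 1 / 4 ≤ ω m)
    (h2 : ∀ m, 1 ≤ m → m + 1 ≤ (Per R).card → 1 / 2 ≤ ω m) {S : Finset V} {w : V}
    (hB : Blk G S w) :
    1 / 2 ≤ ∑ M ∈ (MM G S w).filter (fun M => ∀ p ∈ M, ∃ d, p = w + ι d), ω M.card := by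
  set D := (MM G S w).filter (fun M => ∀ p ∈ M, ∃ d, p = w + ι d) with hD
  have key : ∀ r ∈ R, ∃ M ∈ D, M ⊆ tile R ι (w - ι r) := by
    intro r hr
    obtain ⟨M, hM, hsub⟩ := exists_MM (S := S) (w := w) (hG (w - ι r))
      (mem_tile.2 ⟨r, hr, by abel⟩)
    refine ⟨M, mem_filter.2 ⟨hM, fun p hp => ?_⟩, hsub.trans sdiff_subset⟩
    obtain ⟨s, -, rfl⟩ := mem_tile.1 (mem_sdiff.1 (hsub hp)).1
    exact ⟨s - r, by rw [map_sub]; abel⟩
  by_cases hc : 2 ≤ D.card
  · have h1 := card_nsmul_le_sum D (fun M => ω M.card) (1 / 4) fun M _ => h4 _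
    have h3 : (2 : ℚ) ≤ D.card := by exact_mod_cast hc
    rw [nsmul_eq_mul] at h1
    linarith
  · obtain ⟨r0, hr0⟩ := hR
    obtain ⟨M, hM, -⟩ := key r0 hr0
    have hD1 : D = {M} := eq_singleton_iff_unique_mem.2
      ⟨hM, fun N hN => card_le_one.1 (by omega) N hN M hM⟩
    rw [hD1, sum_singleton]
    have hM' := mem_filter.1 hM
    have hsub : M ⊆ ((Per R).erase 0).image fun d => w + ι d := by
      intro p hp
      obtain ⟨d, rfl⟩ := hM'.2 p hp
      refine mem_image.2 ⟨d, mem_erase.2 ⟨?_, mem_Per.2 fun r hr => ?_⟩, rfl⟩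
      · rintro rfl
        exact (MM_not_mem hM'.1 hp).1 (by simp)
      · obtain ⟨N, hN, hNs⟩ := key r hr
        rw [hD1, mem_singleton] at hN
        obtain ⟨s, hs, e⟩ := mem_tile.1 (hNs (hN ▸ hp))
        have : s = r + d := hι (by
          rw [map_add, ← sub_eq_zero, ← sub_eq_zero.2 e]
          abel)
        exact this ▸ hs
    have h5 := (card_le_card hsub).trans card_image_le
    have h6 := card_erase_add_one (zero_Per (R := R))
    exact h2 _ (hB.nonempty hM'.1).card_pos (by omega)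

lemma two_dir (hR : R.Nonempty) (ι κ : A →+ V) (hι : Function.Injective ι)
    (hκ : Function.Injective κ) (hind : ∀ a b, ι a = κ b → b = 0)
    (hG : ∀ v, tile R ι v ∈ G) (hG' : ∀ v, tile R κ v ∈ G) (ω : ℕ → ℚ) (h4 : ∀ m, 1 / 4 ≤ ω m)
    (h2 : ∀ m, 1 ≤ m → m + 1 ≤ (Per R).card → 1 / 2 ≤ ω m) (S : Finset V) (w : V)
    (hB : Blk G S w) : 1 ≤ ∑ M ∈ MM G S w, ω M.card := by
  classical
  have e1 := dir_half hR ι hι hG ω h4 h2 hB
  have e2 := dir_half hR κ hκ hG' ω h4 h2 hB
  have hd : Disjoint ((MM G S w).filter fun M => ∀ p ∈ M, ∃ d, p = w + ι d)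
      ((MM G S w).filter fun M => ∀ p ∈ M, ∃ d, p = w + κ d) := by
    refine disjoint_left.2 fun M h1 h3 => ?_
    obtain ⟨hM, h1⟩ := mem_filter.1 h1
    obtain ⟨p, hp⟩ := hB.nonempty hM
    obtain ⟨a, ha⟩ := h1 p hp
    obtain ⟨b, hb⟩ := (mem_filter.1 h3).2 p hp
    have := hind a b (add_left_cancel (ha.symm.trans hb))
    exact (MM_not_mem hM hp).1 (by simp [hb, this])
  have h3 := sum_le_sum_of_subset_of_nonneg (f := fun M : Finset V => ω M.card)
    (union_subset (filter_subset _ _) (filter_subset _ _) :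
      ((MM G S w).filter fun M => ∀ p ∈ M, ∃ d, p = w + ι d) ∪
      ((MM G S w).filter fun M => ∀ p ∈ M, ∃ d, p = w + κ d) ⊆ MM G S w)
    fun M _ _ => le_trans (by norm_num) (h4 _)
  rw [sum_union hd] at h3
  have e3 : (1 : ℚ) = 1 / 2 + 1 / 2 := by norm_num
  rw [e3]
  refine le_trans (add_le_add ?_ ?_) h3
  · convert e1
  · convert e2

lemma coset_mem (hc : ∀ r ∈ R, ∀ s ∈ R, s - r ∈ Per R) {ι : A →+ V} {v x p : V}
    (hx : x ∈ tile R ι v) : p ∈ tile R ι v ↔ ∃ d ∈ Per R, p = x + ι d := by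
  obtain ⟨r, hr, rfl⟩ := mem_tile.1 hx
  constructor
  · intro hp
    obtain ⟨s, hs, rfl⟩ := mem_tile.1 hp
    exact ⟨s - r, hc r hr s hs, by rw [map_sub]; abel⟩
  · rintro ⟨d, hd, rfl⟩
    exact mem_tile.2 ⟨r + d, mem_Per.1 hd r hr, by rw [map_add]; abel⟩

/-- for a coset all points added by a move are covered by the added generator only -/
lemma coset_private (hR : R.Nonempty) (hc : ∀ r ∈ R, ∀ s ∈ R, s - r ∈ Per R) (ι κ : A →+ V)
    (hind : ∀ a b, ι a = κ b → b = 0) (hG' : ∀ v, tile R κ v ∈ G)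
    (hall : ∀ T ∈ G, ∃ v, T = tile R ι v ∨ T = tile R κ v) {S T : Finset V} {w v z : V}
    (hB : Blk G S w) (hw : w ∈ tile R ι v) (hz : z ∈ tile R ι v \ insert w S) (hT : T ∈ G)
    (hzT : z ∈ T) (hsub : T ⊆ insert w (S ∪ tile R ι v \ insert w S)) : tile R ι v ⊆ T := by
  obtain ⟨hz1, hz2⟩ := mem_sdiff.1 hz
  obtain ⟨u, rfl | rfl⟩ := hall T hT
  · intro p hp
    exact (coset_mem hc hzT).2 ((coset_mem hc hz1).1 hp)
  exfalso
  obtain ⟨r0, hr0⟩ := hR
  have hw' : w ∈ tile R κ (w - κ r0) := mem_tile.2 ⟨r0, hr0, by abel⟩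
  refine hB.not_sub (hG' _) hw' fun p hp => ?_
  obtain ⟨e, he, rfl⟩ := (coset_mem hc hw').1 hp
  by_cases he0 : e = 0
  · simp [he0]
  obtain ⟨d, hd, hwd⟩ := (coset_mem hc hz1).1 hw
  have h1 : z + κ e ∉ tile R ι v := fun h => by
    obtain ⟨a, -, ha⟩ := (coset_mem hc hz1).1 h
    exact he0 (hind a e (add_left_cancel ha).symm)
  have h2 : z + κ e ∈ S := by
    have := hsub ((coset_mem hc hzT).2 ⟨e, he, rfl⟩)
    rcases mem_insert.1 this with h | h
    · exact absurd (h ▸ hw) h1
    rcases mem_union.1 h with h | h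
    · exact h
    · exact absurd (mem_sdiff.1 h).1 h1
  obtain ⟨U, hU, hzU, hUS⟩ := hB.1 _ h2
  obtain ⟨u', rfl | rfl⟩ := hall U hU
  · refine mem_insert_of_mem (hUS ((coset_mem hc hzU).2 ⟨d, hd, ?_⟩))
    rw [hwd]
    abel
  · refine absurd (mem_insert_of_mem (hUS ((coset_mem hc hzU).2 ⟨-e, neg_Per he, ?_⟩))) hz2
    rw [map_neg]
    abel

open Classical in
theorem torus (hR : R.Nonempty) (h5 : R.card ≤ 5) (ι κ : A →+ V) (hι : Function.Injective ι)
    (hκ : Function.Injective κ) (hind : ∀ a b, ι a = κ b → b = 0)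
    (hG : ∀ T, T ∈ G ↔ ∃ v, T = tile R ι v ∨ T = tile R κ v) :
    ∃ x, (univ.filter fun S => Cl G S).card ≤ 2 * (univ.filter fun S => Cl G S ∧ x ∈ S).card := by
  have hG1 : ∀ v, tile R ι v ∈ G := fun v => (hG _).2 ⟨v, Or.inl rfl⟩
  have hG2 : ∀ v, tile R κ v ∈ G := fun v => (hG _).2 ⟨v, Or.inr rfl⟩
  have hcard : ∀ T ∈ G, T.card ≤ R.card := by
    intro T hT
    obtain ⟨v, rfl | rfl⟩ := (hG T).1 hT <;> exact card_image_le
  by_cases hc : ∀ r ∈ R, ∀ s ∈ R, s - r ∈ Per R
  · refine exists_half (fun _ => 1 / 2)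
      (two_dir hR ι κ hι hκ hind hG1 hG2 (fun _ => 1 / 2) (fun _ => by norm_num)
        fun _ _ _ => le_rfl) fun S' y => ?_
    refine load_le' (fun m => 1 / 2 / m) (fun m => by positivity) (fun q => ?_) S' y fun a ha => ?_
    · rcases Nat.eq_zero_or_pos q with rfl | hq
      · simp
      · have : (q : ℚ) ≠ 0 := by exact_mod_cast hq.ne'
        rw [mul_div_cancel₀ _ this]
        norm_num
    · obtain ⟨S, w, M⟩ := a
      obtain ⟨hB, hM, hy, rfl⟩ := mem_fib.1 ha
      simp only at hB hM hy ⊢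
      intro z hz
      by_cases hzy : z = y
      · simp [hzy]
      refine mem_insert_of_mem (mem_erase.2 ⟨(MM_not_mem hM hz).1,
        mem_QQ.2 ⟨by simp [hz], hzy, fun T hT hzT hsub => ?_⟩⟩)
      obtain ⟨⟨T0, hT0, hw, rfl⟩, -⟩ := mem_MM.1 hM
      obtain ⟨v, rfl | rfl⟩ := (hG T0).1 hT0
      · exact coset_private hR hc ι κ hind hG2 (fun T hT => (hG T).1 hT) hB hw hz hT hzT hsub
          (mem_sdiff.1 hy).1
      · refine coset_private hR hc κ ι (fun a b h => hι ?_) hG1
          (fun T hT => ((hG T).1 hT).imp fun _ h => h.symm) hB hw hz hT hzT hsub (mem_sdiff.1 hy).1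
        rw [← h, hind b a h.symm, map_zero, map_zero]
  push Not at hc
  obtain ⟨r, hr, s, hs, hrs⟩ := hc
  have hP := per_card hr hs hrs
  by_cases h4 : R.card ≤ 4
  · refine exists_half (fun m => if m = 1 then 1 / 2 else 1 / 4)
      (two_dir hR ι κ hι hκ hind hG1 hG2 (fun m => if m = 1 then 1 / 2 else 1 / 4)
        (fun m => by split_ifs <;> norm_num)
        fun m h1 h2 => by rw [if_pos (by omega)]) fun S' y => ?_
    refine load_le (k := 3) (fun T hT => (hcard T hT).trans h4)
      (fun m => (if m = 1 then 1 / 2 else 1 / 4) / m)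
      (fun m => by split_ifs <;> positivity) (fun q m hq hm => ?_) S' y
    have hq3 : q ≤ 3 := by omega
    have hm3 : m ≤ 2 := by omega
    interval_cases q <;> interval_cases m <;>
      first | omega | norm_num [sum_range_succ, Nat.choose]
  · have hP1 : (Per R).card ≤ 1 := by
      by_contra h
      have := per_even (R := R) (by omega)
      rw [show R.card = 5 by omega] at this
      exact absurd this (by decide)
    refine exists_half (fun _ => 1 / 4)
      (two_dir hR ι κ hι hκ hind hG1 hG2 (fun _ => 1 / 4) (fun _ => le_rfl) fun m h1 h2 => by omega)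
      fun S' y => ?_
    refine load_le (k := 4) (fun T hT => (hcard T hT).trans h5) (fun m => 1 / 4 / m)
      (fun m => by positivity) (fun q m hq hm => ?_) S' y
    have hq3 : q ≤ 4 := by omega
    have hm3 : m ≤ 3 := by omega
    interval_cases q <;> interval_cases m <;>
      first | omega | norm_num [sum_range_succ, Nat.choose]

end Pool.Agent.Lib.MP_dbcba7_co.T5
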